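import Mathlib
import Pool.Agent.Results.MP_b298ef_co.OddMultiplicities

/-!
# The ortho-derivative of a quadratic APN function has nonlinearity zero only in dimension three
-/

namespace Pool.Agent.Results.MP_4cfb12_co.OnlyThree

open Finset

/-- the vector space `𝔽₂ⁿ` -/
abbrev V (n : ℕ) : Type := Fin n → ZMod 2

/-- `F` is APN: for all `a ≠ 0` and `b`, the equation `F (x + a) + F x = b` has at most two
solutions. -/
def APN {n : ℕ} (F : V n → V n) : Prop :=
  ∀ a : V n, a ≠ 0 → ∀ b : V n, (univ.filter (fun x => F (x + a) + F x = b)).card ≤ 2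

/-- `F` has algebraic degree two: its coordinates are `∑_T c i T ∏_{t ∈ T} x t` with
`c i T = 0` if `T` has more than two elements, and `c i T ≠ 0` for some `T` with two elements. -/
def IsQuadratic {n : ℕ} (F : V n → V n) : Prop :=
  ∃ c : Fin n → Finset (Fin n) → ZMod 2,
    (∀ x i, F x i = ∑ T : Finset (Fin n), c i T * ∏ t ∈ T, x t) ∧
    (∀ i T, 2 < T.card → c i T = 0) ∧ ∃ i T, T.card = 2 ∧ c i T ≠ 0

/-- `p` is the ortho-derivative of `F`: `p 0 = 0`, and for `a ≠ 0` the vector `p a` is the unique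
nonzero vector orthogonal to all `D_a F (x) + D_a F (0)`, where `D_a F (x) = F (x + a) + F x`. -/
def IsOrtho {n : ℕ} (F p : V n → V n) : Prop :=
  p 0 = 0 ∧ ∀ a : V n, a ≠ 0 → ∀ w : V n,
    w = p a ↔ w ≠ 0 ∧ ∀ x : V n, w ⬝ᵥ ((F (x + a) + F x) + (F (0 + a) + F 0)) = 0

/-- the nonlinearity of `G`: the least number of points where a component `b · G`, `b ≠ 0`,
differs from an affine function `s · x + e` -/
noncomputable def NL {n : ℕ} (G : V n → V n) : ℕ :=
  sInf {d : ℕ | ∃ b : V n, b ≠ 0 ∧ ∃ (s : V n) (e : ZMod 2),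
    d = (univ.filter (fun x => b ⬝ᵥ G x ≠ s ⬝ᵥ x + e)).card}

/-! ### generalities -/

lemma add_self {n : ℕ} (x : V n) : x + x = 0 := by
  funext i
  have : ∀ t : ZMod 2, t + t = 0 := by decide
  exact this (x i)

lemma even_of_involution {α : Type} (S : Finset α) (g : α → α) (h1 : ∀ a ∈ S, g a ∈ S)
    (h2 : ∀ a ∈ S, g (g a) = a) (h3 : ∀ a ∈ S, g a ≠ a) : Even S.card := by
  have h : ∑ a ∈ S, (1 : ZMod 2) = 0 :=
    sum_involution (fun a _ => g a) (fun a _ => by decide) (fun a ha _ => h3 a ha)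
      (fun a ha => h1 a ha) (fun a ha => h2 a ha)
  rw [sum_const, nsmul_eq_mul, mul_one] at h
  exact (ZMod.natCast_eq_zero_iff_even).mp h

lemma single_add_ne {n : ℕ} {p q : Fin n} (hpq : p ≠ q) :
    (Pi.single p 1 + Pi.single q 1 : V n) ≠ 0 := by
  intro h
  have h1 := congrFun h p
  rw [Pi.add_apply, Pi.single_eq_same, Pi.single_eq_of_ne hpq, add_zero, Pi.zero_apply] at h1
  exact absurd h1 (by decide)

lemma single_ne {n : ℕ} (p : Fin n) : (Pi.single p 1 : V n) ≠ 0 := by
  intro h
  have h1 := congrFun h p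
  rw [Pi.single_eq_same, Pi.zero_apply] at h1
  exact absurd h1 (by decide)

/-- a nonzero vector of the hyperplane vanishing on a small set of coordinates -/
lemma exists_shift {n : ℕ} (hn : 4 ≤ n) (s : V n) (T : Finset (Fin n)) (hT : T.card ≤ 2) :
    ∃ t : V n, t ≠ 0 ∧ s ⬝ᵥ t = 0 ∧ ∀ i ∈ T, t i = 0 := by
  have h1 : 1 < (univ \ T : Finset (Fin n)).card := by
    rw [card_sdiff_of_subset (subset_univ T), card_univ, Fintype.card_fin]
    omega
  obtain ⟨p, hp, q, hq, hpq⟩ := one_lt_card.mp h1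
  have hp' : ∀ i ∈ T, i ≠ p := by
    rintro i hi rfl
    exact (mem_sdiff.mp hp).2 hi
  have hq' : ∀ i ∈ T, i ≠ q := by
    rintro i hi rfl
    exact (mem_sdiff.mp hq).2 hi
  have h2 : ∀ t : ZMod 2, t ≠ 0 → t = 1 := by decide
  by_cases h3 : s p = 0
  · exact ⟨Pi.single p 1, single_ne p, by rw [dotProduct_single, h3, zero_mul],
      fun i hi => Pi.single_eq_of_ne (hp' i hi) _⟩
  by_cases h4 : s q = 0
  · exact ⟨Pi.single q 1, single_ne q, by rw [dotProduct_single, h4, zero_mul],
      fun i hi => Pi.single_eq_of_ne (hq' i hi) _⟩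
  refine ⟨Pi.single p 1 + Pi.single q 1, single_add_ne hpq, ?_, ?_⟩
  · rw [dotProduct_add, dotProduct_single, dotProduct_single, h2 _ h3, h2 _ h4]
    decide
  · intro i hi
    rw [Pi.add_apply, Pi.single_eq_of_ne (hp' i hi), Pi.single_eq_of_ne (hq' i hi), add_zero]

lemma even_count {n : ℕ} (hn : 4 ≤ n) (s : V n) (T : Finset (Fin n)) (hT : T.card ≤ 2) :
    Even (univ.filter (fun a : V n => s ⬝ᵥ a = 0 ∧ ∀ i ∈ T, a i = 1)).card := by
  obtain ⟨t, ht0, hts, htT⟩ := exists_shift hn s T hT
  apply even_of_involution _ (fun a => a + t)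
  · intro a ha
    rw [mem_filter] at ha ⊢
    refine ⟨mem_univ _, by rw [dotProduct_add, ha.2.1, hts, add_zero], ?_⟩
    intro i hi
    rw [Pi.add_apply, ha.2.2 i hi, htT i hi, add_zero]
  · intro a _
    simp only [add_assoc, add_self, add_zero]
  · intro a _ h
    exact ht0 (by simpa using h)

lemma prod_eq {n : ℕ} (T : Finset (Fin n)) (a : V n) :
    ∏ t ∈ T, a t = if (∀ i ∈ T, a i = 1) then 1 else 0 := by
  split_ifs with h
  · exact prod_eq_one h
  · push Not at h
    obtain ⟨i, hi, hai⟩ := h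
    have h2 : ∀ t : ZMod 2, t ≠ 1 → t = 0 := by decide
    exact prod_eq_zero hi (h2 _ hai)

/-- a function of degree at most two sums to zero over a subspace of codimension at most one -/
lemma sum_hyper {n : ℕ} (hn : 4 ≤ n) {F : V n → V n} (hF : IsQuadratic F) (s : V n) (v : V n) :
    ∑ a ∈ univ.filter (fun a : V n => s ⬝ᵥ a = 0), v ⬝ᵥ (F a + F 0) = 0 := by
  obtain ⟨c, hc, hc2, -⟩ := hF
  have hE : ((univ.filter (fun a : V n => s ⬝ᵥ a = 0)).card : ZMod 2) = 0 := by
    have := even_count hn s ∅ (by simp)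
    simp only [notMem_empty, false_imp_iff, implies_true, and_true] at this
    exact (ZMod.natCast_eq_zero_iff_even).mpr this
  have h1 : ∑ a ∈ univ.filter (fun a : V n => s ⬝ᵥ a = 0), (F a + F 0) = 0 := by
    funext i
    rw [Finset.sum_apply]
    simp only [Pi.add_apply, sum_add_distrib, sum_const, nsmul_eq_mul]
    rw [hE, zero_mul, add_zero, Pi.zero_apply]
    simp only [hc]
    rw [sum_comm]
    apply sum_eq_zero
    intro T _
    rw [← mul_sum]
    by_cases hT : 2 < T.card
    · rw [hc2 i T hT, zero_mul]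
    · have h2 := even_count hn s T (by omega)
      have h3 : ∑ a ∈ univ.filter (fun a : V n => s ⬝ᵥ a = 0), ∏ t ∈ T, a t =
          ((univ.filter (fun a : V n => s ⬝ᵥ a = 0 ∧ ∀ i ∈ T, a i = 1)).card : ZMod 2) := by
        simp only [prod_eq]
        rw [← sum_filter, sum_const, nsmul_eq_mul, mul_one, filter_filter]
      rw [h3, (ZMod.natCast_eq_zero_iff_even).mpr h2, mul_zero]
  rw [← dotProduct_sum, h1, dotProduct_zero]

lemma card_perp {n : ℕ} {w : V n} (hw : w ≠ 0) :
    2 * (univ.filter (fun y : V n => w ⬝ᵥ y = 0)).card = 2 ^ n := by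
  have h1 := Pool.Agent.Results.MP_b298ef_co.OddMultiplicities.sum_chi' w
  rw [if_neg hw] at h1
  have h2 : ∀ t : ZMod 2, Pool.Agent.Results.MP_b298ef_co.OddMultiplicities.chi t =
      2 * (if t = 0 then 1 else 0) - 1 := by decide
  simp only [h2] at h1
  rw [sum_sub_distrib, ← mul_sum, sum_boole] at h1
  simp only [sum_const, card_univ, Fintype.card_pi, ZMod.card, prod_const, Fintype.card_fin,
    nsmul_eq_mul, mul_one] at h1
  have h3 : (2 * (univ.filter (fun y : V n => w ⬝ᵥ y = 0)).card : ℤ) = 2 ^ n := by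
    push_cast at h1 ⊢
    linarith
  exact_mod_cast h3

/-- the second difference -/
def B {n : ℕ} (F : V n → V n) (a x : V n) : V n := (F (x + a) + F x) + (F (0 + a) + F 0)

lemma B_symm {n : ℕ} (F : V n → V n) (a x : V n) : B F a x = B F x a := by
  unfold B
  rw [zero_add, zero_add, add_comm x a]
  abel

lemma B_self {n : ℕ} (F : V n → V n) (a : V n) : B F a a = 0 := by
  unfold B
  rw [zero_add, add_self]
  have : F 0 + F a + (F a + F 0) = (F 0 + F 0) + (F a + F a) := by abel
  rw [this, add_self, add_self, add_zero]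

lemma B_add {n : ℕ} (F : V n → V n) (a x : V n) : B F (a + x) x = B F a x := by
  unfold B
  have h1 : x + (a + x) = a := by
    calc x + (a + x) = a + (x + x) := by abel
      _ = a := by rw [add_self, add_zero]
  rw [h1, zero_add, zero_add, add_comm a x]
  abel

lemma B_zero {n : ℕ} (F : V n → V n) (x : V n) : B F 0 x = 0 := by
  unfold B
  rw [add_zero, add_zero, add_self, add_self, add_zero]

lemma fiber_le {n : ℕ} {F : V n → V n} (hA : APN F) {a : V n} (ha : a ≠ 0) (y : V n) :
    (univ.filter (fun x => B F a x = y)).card ≤ 2 := by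
  refine le_trans (card_le_card ?_) (hA a ha (y + (F (0 + a) + F 0)))
  intro x hx
  rw [mem_filter] at hx ⊢
  refine ⟨mem_univ _, ?_⟩
  rw [← hx.2]
  unfold B
  rw [add_assoc, add_self, add_zero]

/-- the image of the second difference is the whole orthogonal complement -/
lemma image_eq {n : ℕ} {F p : V n → V n} (hA : APN F) (hO : IsOrtho F p) {a : V n} (ha : a ≠ 0)
    (y : V n) (hy : p a ⬝ᵥ y = 0) : ∃ x, B F a x = y := by
  obtain ⟨h0, hperp⟩ := ((hO.2 a ha (p a)).mp rfl)
  have hsub : univ.image (B F a) ⊆ univ.filter (fun y : V n => p a ⬝ᵥ y = 0) := by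
    intro z hz
    obtain ⟨x, _, rfl⟩ := mem_image.mp hz
    exact mem_filter.mpr ⟨mem_univ _, hperp x⟩
  have hcard : 2 ^ n ≤ 2 * (univ.image (B F a)).card := by
    have h1 := card_le_mul_card_image (f := B F a) (s := univ) 2 (fun z _ => fiber_le hA ha z)
    simpa [ZMod.card] using h1
  have heq : univ.image (B F a) = univ.filter (fun y : V n => p a ⬝ᵥ y = 0) := by
    apply eq_of_subset_of_card_le hsub
    have := card_perp h0
    omega
  have : y ∈ univ.image (B F a) := by
    rw [heq]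
    exact mem_filter.mpr ⟨mem_univ _, hy⟩
  obtain ⟨x, _, hx⟩ := mem_image.mp this
  exact ⟨x, hx⟩

/-- **In dimension at least four no nonzero component of the ortho-derivative is affine.** -/
theorem no_affine {n : ℕ} (hn : 4 ≤ n) {F p : V n → V n} (hF : IsQuadratic F) (hA : APN F)
    (hO : IsOrtho F p) (b s : V n) (hb : b ≠ 0) (e : ZMod 2) (h : ∀ x, b ⬝ᵥ p x = s ⬝ᵥ x + e) :
    False := by
  have he : e = 0 := by
    have h1 := h 0
    rw [hO.1, dotProduct_zero, dotProduct_zero, zero_add] at h1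
    exact h1.symm
  subst he
  simp only [add_zero] at h
  obtain ⟨i, hi⟩ : ∃ i, b i ≠ 0 := by
    by_contra hcon
    push Not at hcon
    exact hb (funext hcon)
  have hi1 : b i = 1 := by
    have : ∀ t : ZMod 2, t ≠ 0 → t = 1 := by decide
    exact this _ hi
  -- the functional
  let v : V n := Pi.single i 1
  have hv : v ⬝ᵥ b = 1 := by
    simp only [v]
    rw [single_dotProduct, hi1, mul_one]
  let q : V n → ZMod 2 := fun a => v ⬝ᵥ (F a + F 0)
  have hq0 : q 0 = 0 := by
    simp only [q]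
    rw [add_self, dotProduct_zero]
  have hqadd : ∀ a x, B F a x = b → q (a + x) = q a + q x + 1 := by
    intro a x hax
    have h1 : v ⬝ᵥ B F a x = 1 := by rw [hax, hv]
    rw [← h1]
    simp only [q]
    rw [← dotProduct_add, ← dotProduct_add]
    congr 1
    unfold B
    rw [zero_add, add_comm x a]
    have h2 : F a + F 0 + (F x + F 0) + (F (a + x) + F x + (F a + F 0)) =
        (F (a + x) + F 0) + (F a + F a) + (F x + F x) + (F 0 + F 0) := by abel
    rw [h2, add_self, add_self, add_self, add_zero, add_zero, add_zero]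
  let E : Finset (V n) := univ.filter (fun a : V n => s ⬝ᵥ a = 0)
  -- the number of solutions
  have hc : ∀ a : V n, (univ.filter (fun x => B F a x = b)).card =
      if (s ⬝ᵥ a = 0 ∧ a ≠ 0) then 2 else 0 := by
    intro a
    split_ifs with ha
    · apply le_antisymm (fiber_le hA ha.2 b)
      obtain ⟨x, hx⟩ := image_eq hA hO ha.2 b (by rw [dotProduct_comm, h, ha.1])
      have hne : x ≠ x + a := by
        intro hh
        exact ha.2 (by simpa using hh.symm)
      calc 2 = ({x, x + a} : Finset (V n)).card := (card_pair hne).symm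
        _ ≤ _ := card_le_card (by
          intro t ht
          rw [mem_insert, mem_singleton] at ht
          rw [mem_filter]
          refine ⟨mem_univ _, ?_⟩
          rcases ht with rfl | rfl
          · exact hx
          · rw [B_symm, B_add, B_symm, hx])
    · rw [card_eq_zero, filter_eq_empty_iff]
      intro x _ hx
      by_cases ha0 : a = 0
      · subst ha0
        rw [B_zero] at hx
        exact hb hx.symm
      · have hperp := ((hO.2 a ha0 (p a)).mp rfl).2 x
        have h1 : p a ⬝ᵥ b = 0 := by rw [← hx]; exact hperp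
        rw [dotProduct_comm, h] at h1
        exact ha ⟨h1, ha0⟩
  let R : Finset (V n × V n) := univ.filter (fun t => B F t.1 t.2 = b)
  have hR : ∀ g : V n → ℕ, ∑ t ∈ R, g t.1 = 2 * ∑ a ∈ E.erase 0, g a := by
    intro g
    have h1 : ∑ t ∈ R, g t.1 = ∑ a : V n, ∑ x : V n, if B F a x = b then g a else 0 := by
      rw [sum_filter, Fintype.sum_prod_type]
    have h2 : ∀ a : V n, ∑ x : V n, (if B F a x = b then g a else 0) =
        if (s ⬝ᵥ a = 0 ∧ a ≠ 0) then 2 * g a else 0 := by
      intro a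
      rw [← sum_filter, sum_const, hc a, smul_eq_mul]
      split_ifs <;> simp
    rw [h1, sum_congr rfl (fun a _ => h2 a), ← sum_filter, mul_sum]
    congr 1
    ext a
    simp only [E, mem_filter, mem_univ, true_and, mem_erase]
    tauto
  have hR2 : ∀ g : V n → ℕ, ∑ t ∈ R, g t.2 = ∑ t ∈ R, g t.1 := by
    intro g
    apply sum_bij (fun t _ => (t.2, t.1))
    · intro t ht
      rw [mem_filter] at ht ⊢
      exact ⟨mem_univ _, by simp only; rw [B_symm, ht.2]⟩
    · intro t _ t' _ hh
      simp only [Prod.mk.injEq] at hh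
      exact Prod.ext hh.2 hh.1
    · intro t ht
      refine ⟨(t.2, t.1), ?_, rfl⟩
      rw [mem_filter] at ht ⊢
      exact ⟨mem_univ _, by simp only; rw [B_symm, ht.2]⟩
    · intro t _; rfl
  have hR3 : ∀ g : V n → ℕ, ∑ t ∈ R, g (t.1 + t.2) = ∑ t ∈ R, g t.1 := by
    intro g
    apply sum_bij (fun t _ => (t.1 + t.2, t.2))
    · intro t ht
      rw [mem_filter] at ht ⊢
      exact ⟨mem_univ _, by simp only; rw [B_add, ht.2]⟩
    · intro t _ t' _ hh
      simp only [Prod.mk.injEq] at hh
      obtain ⟨h1, h2⟩ := hh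
      rw [h2] at h1
      exact Prod.ext (add_right_cancel h1) h2
    · intro t ht
      refine ⟨(t.1 + t.2, t.2), ?_, ?_⟩
      · rw [mem_filter] at ht ⊢
        exact ⟨mem_univ _, by simp only; rw [B_add, ht.2]⟩
      · simp only [add_assoc, add_self, add_zero]
    · intro t _; rfl
  -- integer valued versions
  let Q : V n → ℕ := fun a => (q a).val
  have hQ : ∑ t ∈ R, (Q t.1 + Q t.2 + Q (t.1 + t.2)) = 6 * ∑ a ∈ E.erase 0, Q a := by
    rw [sum_add_distrib, sum_add_distrib, hR2, hR3, hR]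
    ring
  let A : Finset (V n × V n) := R.filter (fun t => q t.1 = 1 ∧ q t.2 = 1)
  have hpt : ∀ t ∈ R, Q t.1 + Q t.2 + Q (t.1 + t.2) =
      1 + 2 * (if (q t.1 = 1 ∧ q t.2 = 1) then 1 else 0) := by
    intro t ht
    have h1 := hqadd t.1 t.2 (mem_filter.mp ht).2
    simp only [Q, h1]
    have h2 : ∀ u w : ZMod 2, u.val + w.val + (u + w + 1).val =
        1 + 2 * (if (u = 1 ∧ w = 1) then 1 else 0) := by decide
    exact h2 _ _
  have hA2 : Even A.card := by
    apply even_of_involution A (fun t => (t.2, t.1))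
    · intro t ht
      simp only [A, R, mem_filter, mem_univ, true_and] at ht ⊢
      exact ⟨by rw [B_symm, ht.1], ht.2.2, ht.2.1⟩
    · intro t _; rfl
    · intro t ht hh
      simp only [A, R, mem_filter, mem_univ, true_and] at ht
      have h1 : t.2 = t.1 := (congrArg Prod.fst hh)
      rw [h1, B_self] at ht
      exact hb ht.1.symm
  rw [sum_congr rfl hpt, sum_add_distrib, ← mul_sum, ← card_filter, sum_const, smul_eq_mul,
    mul_one] at hQ
  have hRc : R.card = 2 * (E.erase 0).card := by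
    have h1 := hR (fun _ => 1)
    simpa using h1
  have hE0 : (0 : V n) ∈ E := by simp [E]
  have hEc : (E.erase 0).card + 1 = E.card := card_erase_add_one hE0
  have hEe : Even E.card := by
    have := even_count hn s ∅ (by simp)
    simpa [E] using this
  have hQe : Even (∑ a ∈ E.erase 0, Q a) := by
    have h1 := sum_hyper hn hF s v
    have h2 : ((∑ a ∈ E.erase 0, Q a : ℕ) : ZMod 2) = 0 := by
      push_cast
      have h3 : ∀ a : V n, ((Q a : ℕ) : ZMod 2) = q a := fun a => ZMod.natCast_zmod_val _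
      simp only [h3]
      rw [← h1, ← add_sum_erase E q hE0, hq0, zero_add]
    exact (ZMod.natCast_eq_zero_iff_even).mp h2
  obtain ⟨u1, hu1⟩ := hA2
  obtain ⟨u2, hu2⟩ := hEe
  obtain ⟨u3, hu3⟩ := hQe
  have hAc : (R.filter (fun t => q t.1 = 1 ∧ q t.2 = 1)).card = u1 + u1 := hu1
  rw [hAc, hRc, hu3] at hQ
  omega

/-! ### dimension three -/

/-- the cube map of the field with eight elements in a suitable basis -/
def F3 : V 3 → V 3 := fun x =>
  ![x 0 + x 1 + x 2 + x 1 * x 2, x 1 + x 0 * x 1 + x 0 * x 2, x 2 + x 0 * x 1]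

/-- its ortho-derivative -/
def p3 : V 3 → V 3 := fun a => ![a 0, a 1, a 1 + a 2]

/-- the coefficients of `F3` -/
def c3 : Fin 3 → Finset (Fin 3) → ZMod 2 := fun i T =>
  if i = 0 then (if T = {0} ∨ T = {1} ∨ T = {2} ∨ T = {1, 2} then 1 else 0)
  else if i = 1 then (if T = {1} ∨ T = {0, 1} ∨ T = {0, 2} then 1 else 0)
  else (if T = {2} ∨ T = {0, 1} then 1 else 0)

lemma quad3 : IsQuadratic F3 := by
  refine ⟨c3, ?_, by decide +kernel, 0, {1, 2}, by decide, by decide⟩
  decide +kernel

lemma apn3 : APN F3 := by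
  unfold APN
  decide +kernel

lemma ortho3 : IsOrtho F3 p3 := by
  refine ⟨by decide, ?_⟩
  decide +kernel

lemma nl3 : NL p3 = 0 := by
  unfold NL
  refine Nat.sInf_eq_zero.mpr (Or.inl ⟨Pi.single 0 1, by decide, Pi.single 0 1, 0, ?_⟩)
  decide +kernel

/-- **Main theorem.** Let `n ≥ 3`. There is a quadratic APN function on `𝔽₂ⁿ` whose
ortho-derivative has nonlinearity zero if and only if `n = 3`. -/
theorem result : ∀ n : ℕ, 3 ≤ n →
    ((∃ F p : V n → V n, IsQuadratic F ∧ APN F ∧ IsOrtho F p ∧ NL p = 0) ↔ n = 3) := by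
  intro n hn
  constructor
  · rintro ⟨F, p, hF, hA, hO, hNL⟩
    by_contra hne
    have hn4 : 4 ≤ n := by omega
    have hmem : (0 : ℕ) ∈ {d : ℕ | ∃ b : V n, b ≠ 0 ∧ ∃ (s : V n) (e : ZMod 2),
        d = (univ.filter (fun x => b ⬝ᵥ p x ≠ s ⬝ᵥ x + e)).card} := by
      have hnon : {d : ℕ | ∃ b : V n, b ≠ 0 ∧ ∃ (s : V n) (e : ZMod 2),
          d = (univ.filter (fun x => b ⬝ᵥ p x ≠ s ⬝ᵥ x + e)).card}.Nonempty :=
        ⟨_, Pi.single ⟨0, by omega⟩ 1, single_ne _, 0, 0, rfl⟩
      have := Nat.sInf_mem hnon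
      unfold NL at hNL
      rwa [hNL] at this
    obtain ⟨b, hb, s, e, h0⟩ := hmem
    have h1 := card_eq_zero.mp h0.symm
    rw [filter_eq_empty_iff] at h1
    exact no_affine hn4 hF hA hO b s hb e (fun x => not_not.mp (h1 (mem_univ x)))
  · rintro rfl
    exact ⟨F3, p3, quad3, apn3, ortho3, nl3⟩

end Pool.Agent.Results.MP_4cfb12_co.OnlyThree
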